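import Pool.Agent.Helper26_BSN.Defs2

/-!
# OMD: the standard part is `Σ_{j+2}`
-/

namespace Pool.Agent.BSN.H41

open Filter Cardinal Pool.Agent.BSig Pool.Agent.BSN

theorem bdd_npr {τ : Tower} {f g : ℕ → ℕ} (hf : Bddt τ f) (hg : Bddt τ g) :
    Bddt τ (fun n => npr (f n) (g n)) := by
  have h1 := bdd_add hf hg
  have h2 := bdd_add (bdd_mul h1 h1) hf
  refine bdd_of_le h2 (Eventually.of_forall fun n => ?_)
  simp only [npr]
  nlinarith

theorem bdd_chb {τ : Tower} (k : ℕ) {f : ℕ → ℕ} (hf : Bddt τ f) :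
    Bddt τ (fun n => chb k (f n)) := by
  have h1 := bdd_pow2 (bdd_add (bdd_npr (bdd_const k) hf) (bdd_const (τ := τ) 1))
  have h2 := bdd_pow2 (bdd_add (bdd_npr hf (bdd_npr hf (bdd_add hf (bdd_const 1))))
    (bdd_const (τ := τ) 1))
  exact bdd_npr h1 h2

theorem omegaSigma_proof (hcn : ChainNot) (hst : StarStmt) (hlow : ChainLow) (hup : ChainUp)
    (hcl : SigClosed) : OmegaSigma := by
  intro j
  obtain ⟨hsubst, -⟩ := hcl (MMt (towj j))
  have h1 := hst j (j + 1) le_rfl 3 _ (hcn j)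
  set N3 : (Fin 3 → MMt (towj j)) → Prop :=
    starR (τ := towj j) (fun v : Fin 3 → ℕ => ¬ Ch j (v 0) (v 1) (v 2)) with hN3
  let F : Fin 3 → (Fin (1 + 1) → MMt (towj j)) → MMt (towj j) :=
    ![fun w => w 0, fun w => w 1, fun _ => aat (towj j) 0]
  have hF : ∀ i, IsTerm (F i) := by
    intro i
    fin_cases i
    · exact IsTerm.var 0
    · exact IsTerm.var 1
    · exact IsTerm.param _
  have h2 := hsubst (j + 1) 3 (1 + 1) N3 h1 F hF
  refine ⟨1, fun v => N3 (fun i => F i v), h2, ?_⟩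
  intro v
  -- the meaning of the matrix
  have hrepp : ∀ᶠ n in (UU : Filter ℕ), rep (aat (towj j) 0) n = n + 2 :=
    rep_mk ((towj j).tow 0) (bdd_tow 0)
  have key : ∀ w : Fin 1 → MMt (towj j), (¬ N3 (fun i => F i (Fin.append w v))) ↔
      ∀ᶠ n in (UU : Filter ℕ), Ch j (rep (w 0) n) (rep (v 0) n) (n + 2) := by
    intro w
    have e0 : Fin.append w v 0 = w 0 := Fin.append_left w v 0
    have e1 : Fin.append w v 1 = v 0 := Fin.append_right w v 0
    have e2 : N3 (fun i => F i (Fin.append w v)) ↔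
        ∀ᶠ n in (UU : Filter ℕ), ¬ Ch j (rep (w 0) n) (rep (v 0) n)
          (rep (aat (towj j) 0) n) := by
      change (∀ᶠ n in (UU : Filter ℕ), ¬ Ch j (rep (Fin.append w v 0) n)
        (rep (Fin.append w v 1) n) (rep (aat (towj j) 0) n)) ↔ _
      rw [e0, e1]
    rw [e2, not_eventually']
    constructor
    · intro h
      filter_upwards [h, hrepp] with n h3 h4
      rw [h4, not_not] at h3
      exact h3
    · intro h
      filter_upwards [h, hrepp] with n h3 h4
      rw [h4, not_not]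
      exact h3
  constructor
  · rintro ⟨k, hk⟩
    have hk' : (k : MMt (towj j)) = v 0 := hk
    -- the chains
    choose b hb1 hb2 using fun n : ℕ => hup j k (n + 2)
    have hb : Bddt (towj j) b := by
      refine bdd_of_le (bdd_chb k (bdd_tow (τ := towj j) k)) (Eventually.of_forall fun n => ?_)
      exact hb2 n
    refine ⟨fun _ => mk b hb, ?_⟩
    rw [key]
    have hrk : ∀ᶠ n in (UU : Filter ℕ), rep (v 0) n = k := by
      rw [← hk', natCast_mk]
      exact rep_mk (fun _ => k) (bdd_const k)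
    filter_upwards [rep_mk b hb, hrk] with n h3 h4
    rw [h3, h4]
    exact hb1 n
  · rintro ⟨w, hw⟩
    rw [key] at hw
    by_contra hnot
    obtain ⟨K, hK⟩ := bdd_rep (w 0)
    have hge : ∀ᶠ n in (UU : Filter ℕ), K ≤ rep (v 0) n := by
      have h3 : (K : MMt (towj j)) ≤ v 0 := by
        by_contra hlt
        rw [not_le, lt_natCast_iff] at hlt
        obtain ⟨k, -, hk⟩ := hlt
        exact hnot ⟨k, hk.symm⟩
      rw [natCast_mk, ← mk_rep (v 0), mk_le] at h3
      exact h3
    obtain ⟨n, hn⟩ := (hw.and (hK.and hge)).exists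
    have h4 := hlow j _ _ _ hn.1
    have h5 : (towj j).tow K n ≤ (towj j).tow (rep (v 0) n) n := tow_mono (towj j) hn.2.2 n
    have h6 : (towj j).tow (rep (v 0) n) n = twr j (n + 2) (rep (v 0) n) := rfl
    have h7 := hn.2.1
    omega

end Pool.Agent.BSN.H41
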