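import Pool.Agent.Helper26_BSN.Defs2

/-!
# STR: the extensions of `Σ_j` relations
-/

namespace Pool.Agent.BSN.H41

open Filter Cardinal Pool.Agent.BSig Pool.Agent.BSN

theorem starStmt_proof (h0 : Star0) (hs : StepStmt) : StarStmt := by
  intro j j'
  induction j' with
  | zero =>
    intro _ k S hS
    exact h0 (towj j) k S hS
  | succ j' ih =>
    intro hj k S hS
    obtain ⟨i, Q, hQ, hSQ⟩ := hS
    refine ⟨i, starR (τ := towj j) Q, ih (by omega) (i + k) Q hQ, ?_⟩
    intro v
    rw [← hs j j' (by omega) i k Q hQ v]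
    refine eventually_congr (Eventually.of_forall fun n => ?_)
    exact hSQ (fun t => rep (v t) n)

end Pool.Agent.BSN.H41
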